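import Pool.Agent.Lib.MP_6b8987_gt.HFill

set_option autoImplicit false

namespace Pool.Agent.Variants.MP_6b8987_gt.HoleJoined

open Pool.Agent.Lib.MP_6b8987_gt MeasureTheory Set Filter

/-- In dimension at least four the holes of a bounded domain are wasted in every packing, the
bound is the exact asymptotic value when the filled domain is complete Reinhardt, and spherical
shells have asymptotic packing number less than one. -/
theorem result (n : ℕ) (hn : 2 ≤ n) (X : Set (R2n n)) (hXo : IsOpen X) (hXne : X.Nonempty)
    (hXv : volume X ≠ ⊤) (hX : fill X = X) :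
    (∀ D : Set (R2n n), IsOpen D → IsConnected D → Bornology.IsBounded D →
      (∀ k, packingNumber k D X ≤ volume D / volume (fill D)) ∧
      (IsCompleteReinhardt (fill D) → asymptoticPacking D X = volume D / volume (fill D))) ∧
    ∀ a : ℝ, 0 < a → a < 1 →
      (IsOpen (shell n a) ∧ IsConnected (shell n a) ∧ Bornology.IsBounded (shell n a)) ∧
      (∀ k, packingNumber k (shell n a) X ≤ ENNReal.ofReal (1 - a ^ (2 * n))) ∧
      asymptoticPacking (shell n a) X = ENNReal.ofReal (1 - a ^ (2 * n)) ∧
      asymptoticPacking (shell n a) X < 1 := by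
  refine ⟨fun D hDo hD hb => ⟨packingNumber_le_fill hn hDo hD hb hXo hX,
    fun hR => asymptoticPacking_fill hn hDo hD hb hR hXo hXne hXv hX⟩, fun a ha ha1 => ?_⟩
  have ho : IsOpen (shell n a) := isOpen_Ioo.preimage continuous_norm
  have hc := isConnected_shell hn ha ha1
  have hb : Bornology.IsBounded (shell n a) := Metric.isBounded_ball.subset (shell_subset_ball a)
  have hv : volume (shell n a) / volume (fill (shell n a)) = ENNReal.ofReal (1 - a ^ (2 * n)) := by
    rw [fill_shell ha1, volume_shell_div (by omega) ha ha1]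
  have he := asymptoticPacking_fill hn ho hc hb (fill_shell (n := n) ha1 ▸ isCompleteReinhardt_ball)
    hXo hXne hXv hX
  rw [hv] at he
  refine ⟨⟨ho, hc, hb⟩, fun k => hv ▸ packingNumber_le_fill hn ho hc hb hXo hX k, he, ?_⟩
  rw [he, ENNReal.ofReal_lt_one]
  linarith [pow_pos ha (2 * n)]

end Pool.Agent.Variants.MP_6b8987_gt.HoleJoined
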